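import Mathlib
import Pool.Agent.W387.R.Stm

/-!
The action of the right-angled Artin group on the states.
-/

set_option autoImplicit false

namespace Pool.Agent.W33.RA

open Pool.Agent.W387 Pool.Agent.W387.RA

/-! ### Partial involutions -/

section gen

variable {S : Type}

open Classical in
/-- the involution of a symmetric functional relation -/
noncomputable def pf (R : S → S → Prop) (s : S) : S := if h : ∃ s', R s s' then h.choose else s

theorem pf_eq {R : S → S → Prop} (hf : ∀ s a b, R s a → R s b → a = b) {s s' : S} (h : R s s') :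
    pf R s = s' := by
  have h' : ∃ s', R s s' := ⟨s', h⟩
  unfold pf
  rw [dif_pos h']
  exact hf _ _ _ h'.choose_spec h

theorem pf_ne {R : S → S → Prop} {s : S} (h : ∀ s', ¬ R s s') : pf R s = s := by
  unfold pf
  rw [dif_neg]
  rintro ⟨s', h'⟩
  exact h s' h'

theorem pf_pf {R : S → S → Prop} (hf : ∀ s a b, R s a → R s b → a = b)
    (hs : ∀ a b, R a b → R b a) (s : S) : pf R (pf R s) = s := by
  by_cases h : ∃ s', R s s'
  · obtain ⟨s', h'⟩ := h
    rw [pf_eq hf h', pf_eq hf (hs _ _ h')]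
  · have h0 : ∀ s', ¬ R s s' := fun s' hs' => h ⟨s', hs'⟩
    rw [pf_ne h0, pf_ne h0]

/-- the permutation of a symmetric functional relation -/
noncomputable def pinv (R : S → S → Prop) (hf : ∀ s a b, R s a → R s b → a = b)
    (hs : ∀ a b, R a b → R b a) : Equiv.Perm S where
  toFun := pf R
  invFun := pf R
  left_inv := pf_pf hf hs
  right_inv := pf_pf hf hs

theorem pinv_apply (R : S → S → Prop) (hf : ∀ s a b, R s a → R s b → a = b)
    (hs : ∀ a b, R a b → R b a) (s : S) : pinv R hf hs s = pf R s := rfl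

theorem pinv_comm (R : S → S → Prop) (hf : ∀ s a b, R s a → R s b → a = b)
    (hs : ∀ a b, R a b → R b a)
    (g : Equiv.Perm S) (h1 : ∀ a b, R a b → R (g a) (g b))
    (h2 : ∀ a b, R a b → R (g⁻¹ a) (g⁻¹ b)) : Commute (pinv R hf hs) g := by
  apply Equiv.ext
  intro s
  show pf R (g s) = g (pf R s)
  by_cases h : ∃ s', R s s'
  · obtain ⟨s', h'⟩ := h
    rw [pf_eq hf h', pf_eq hf (h1 _ _ h')]
  · have h0 : ∀ s', ¬ R s s' := fun s' hs' => h ⟨s', hs'⟩
    rw [pf_ne h0, pf_ne]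
    intro s' hs'
    apply h0 (g⁻¹ s')
    have h3 := h2 _ _ hs'
    have h4 : g⁻¹ (g s) = s := g.symm_apply_apply s
    rw [h4] at h3
    exact h3

theorem pf_pres {R Q : S → S → Prop} (hQ : ∀ s a b, Q s a → Q s b → a = b)
    (hRs : ∀ a b, R a b → R b a)
    (hsq : ∀ s a b, R s a → Q s b → ∃ c, Q a c ∧ R b c) (a b : S) (h : R a b) :
    R (pf Q a) (pf Q b) := by
  by_cases h1 : ∃ c, Q a c
  · obtain ⟨c, hc⟩ := h1
    obtain ⟨d, hd1, hd2⟩ := hsq a b c h hc
    rw [pf_eq hQ hc, pf_eq hQ hd1]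
    exact hd2
  · have h0 : ∀ c, ¬ Q a c := fun c hc => h1 ⟨c, hc⟩
    have h2 : ∀ d, ¬ Q b d := by
      intro d hd
      obtain ⟨c, hc1, _⟩ := hsq b a d (hRs _ _ h) hd
      exact h0 c hc1
    rw [pf_ne h0, pf_ne h2]
    exact h

theorem pinv_comm_pinv (R Q : S → S → Prop) (hR : ∀ s a b, R s a → R s b → a = b)
    (hRs : ∀ a b, R a b → R b a) (hQ : ∀ s a b, Q s a → Q s b → a = b)
    (hQs : ∀ a b, Q a b → Q b a)
    (hsq : ∀ s a b, R s a → Q s b → ∃ c, Q a c ∧ R b c) :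
    Commute (pinv R hR hRs) (pinv Q hQ hQs) := by
  apply pinv_comm
  · intro a b h
    exact pf_pres hQ hRs hsq a b h
  · intro a b h
    exact pf_pres hQ hRs hsq a b h

end gen

/-! ### The position map -/

theorem sq_tp_all : (sqs.all fun t => decide (tp t.1 = tp t.2.2.1) &&
    decide (tp t.2.1 = tp t.2.2.2)) = true := by
  decide +kernel

theorem sq_be_all : (sqs.all fun t =>
    decide (be t.1 - be t.2.1 + be t.2.2.1 - be t.2.2.2 = 0)) = true := by
  decide +kernel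

theorem sq_be : ∀ t ∈ sqs, be t.1 - be t.2.1 + be t.2.2.1 - be t.2.2.2 = 0 := by
  intro t ht
  exact of_decide_eq_true (List.all_eq_true.mp sq_be_all t ht)

theorem sq_tp : ∀ t ∈ sqs, tp t.1 = tp t.2.2.1 ∧ tp t.2.1 = tp t.2.2.2 := by
  intro t ht
  have h := List.all_eq_true.mp sq_tp_all t ht
  rw [Bool.and_eq_true] at h
  exact ⟨of_decide_eq_true h.1, of_decide_eq_true h.2⟩

/-- the position map of `G` -/
def posG : G →* Multiplicative Bz :=
  PresentedGroup.toGroup (f := fun e : Lt => Multiplicative.ofAdd (be e)) (by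
    intro r hr
    have hr' : r ∈ relF := by exact_mod_cast hr
    unfold relF at hr'
    rw [Finset.mem_insert, List.mem_toFinset, List.mem_map] at hr'
    rcases hr' with rfl | ⟨t, ht, rfl⟩
    · rw [FreeGroup.lift_apply_of]
      have : be 3 = 0 := by decide +kernel
      rw [this]
      rfl
    · unfold sqRel
      simp only [map_mul, map_inv, FreeGroup.lift_apply_of]
      have h := sq_be t ht
      rw [← ofAdd_neg, ← ofAdd_neg, ← ofAdd_add, ← ofAdd_add, ← ofAdd_add, ← sub_eq_add_neg,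
        ← sub_eq_add_neg, h]
      rfl)

theorem posG_gl (e : Lt) : posG (gl e) = Multiplicative.ofAdd (be e) := by
  unfold posG gl pg
  exact PresentedGroup.toGroup.of _

/-- the position map -/
def piX : Xh →* Multiplicative Bz :=
  posG.comp ((SemidirectProduct.rightHom : TH C1 →* G).comp
    ((MonoidHom.fst (TH C1) K4).comp (SemidirectProduct.rightHom : Xh →* G2)))

theorem piX_iG (g : G) : piX (iG g) = posG g := rfl

theorem piX_tau : piX tauX = 1 := by
  show posG 1 = 1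
  exact map_one _

theorem piX_kk (i : Fin 4) : piX (kkX i) = 1 := by
  show posG 1 = 1
  exact map_one _

theorem piX_sig : piX sigX = 1 := by
  show posG 1 = 1
  exact map_one _

/-- the position of a state -/
def pos (x : Xh) : Bz := Multiplicative.toAdd (piX x)

theorem pos_mul (x y : Xh) : pos (x * y) = pos x + pos y := by
  unfold pos
  rw [map_mul, toAdd_mul]

theorem pos_inv (x : Xh) : pos x⁻¹ = - pos x := by
  unfold pos
  rw [map_inv, toAdd_inv]

theorem pos_iG (e : Lt) : pos (iG (gl e)) = be e := by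
  unfold pos
  rw [piX_iG, posG_gl]
  rfl

theorem pos_one {u : Xh} (hu : piX u = 1) : pos u = 0 := by
  unfold pos
  rw [hu]
  rfl

/-! ### Squares -/

/-- the relation of a square in `G` -/
theorem sq_G (t : Lt × Lt × Lt × Lt) (ht : t ∈ sqs) :
    gl t.1 * (gl t.2.1)⁻¹ * gl t.2.2.1 * (gl t.2.2.2)⁻¹ = 1 := by
  have h : sqRel t ∈ Subgroup.normalClosure (↑relF : Set (FreeGroup Lt)) := by
    apply Subgroup.subset_normalClosure
    unfold relF
    rw [Finset.mem_coe, Finset.mem_insert, List.mem_toFinset, List.mem_map]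
    exact Or.inr ⟨t, ht, rfl⟩
  have h1 : pg relF (sqRel t) = 1 := by
    unfold pg
    exact (QuotientGroup.eq_one_iff _).mpr h
  unfold sqRel at h1
  simp only [map_mul, map_inv] at h1
  exact h1

theorem sq_X (t : Lt × Lt × Lt × Lt) (ht : t ∈ sqs) :
    iG (gl t.1) * (iG (gl t.2.1))⁻¹ * iG (gl t.2.2.1) * (iG (gl t.2.2.2))⁻¹ = 1 := by
  have h := congrArg iG (sq_G t ht)
  simpa only [map_mul, map_inv, map_one] using h

theorem lab_ext {e f : Lt} {b c : Bz} (h : tp e = tp f)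
    (h2 : (b + ofs e) - (c + ofs f) ∈ Kj (tp e)) : lab e b = lab f c := by
  unfold lab
  have key : ∀ (i j : Fin 8) (hij : i = j) (x y : Bz), x - y ∈ Kj i →
      (⟨i, QuotientAddGroup.mk x⟩ : Vc) = ⟨j, QuotientAddGroup.mk y⟩ := by
    intro i j hij x y hxy
    subst hij
    congr 1
    rw [QuotientAddGroup.eq]
    have : - x + y = - (x - y) := by abel
    rw [this]
    exact neg_mem hxy
  exact key _ _ h _ _ h2

theorem sq_lab1 (t : Lt × Lt × Lt × Lt) (ht : t ∈ sqs) (b : Bz) :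
    lab t.2.2.1 (b + be t.1 - be t.2.1) = lab t.1 b := by
  symm
  apply lab_ext (sq_tp t ht).1
  have : (b + ofs t.1) - (b + be t.1 - be t.2.1 + ofs t.2.2.1)
      = ofs t.1 - (be t.1 - be t.2.1 + ofs t.2.2.1) := by abel
  rw [this]
  apply AddSubgroup.subset_closure
  exact ⟨t, ht, Or.inl ⟨rfl, rfl⟩⟩

theorem sq_lab2 (t : Lt × Lt × Lt × Lt) (ht : t ∈ sqs) (b : Bz) :
    lab t.2.1 (b + be t.1 - be t.2.1) = lab t.2.2.2 b := by
  symm
  apply lab_ext (sq_tp t ht).2.symm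
  have : (b + ofs t.2.2.2) - (b + be t.1 - be t.2.1 + ofs t.2.1)
      = ofs t.2.2.2 - (be t.1 - be t.2.1 + ofs t.2.1) := by abel
  rw [this]
  apply AddSubgroup.subset_closure
  exact ⟨t, ht, Or.inr ⟨(sq_tp t ht).2, rfl⟩⟩

/-! ### The moves along edges -/

/-- the move along the edge with the label `v` -/
def RE (v : Vc) (s s' : Xh × Bool) : Prop :=
  ∃ (x : Xh) (e : Lt), lab e (pos x) = v ∧
    ((s = (x, true) ∧ s' = (x * iG (gl e), false)) ∨
      (s = (x * iG (gl e), false) ∧ s' = (x, true)))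

theorem RE_symm (v : Vc) (s s' : Xh × Bool) (h : RE v s s') : RE v s' s := by
  obtain ⟨x, e, hv, h⟩ := h
  refine ⟨x, e, hv, ?_⟩
  rcases h with ⟨h1, h2⟩ | ⟨h1, h2⟩
  · exact Or.inr ⟨h2, h1⟩
  · exact Or.inl ⟨h2, h1⟩

theorem RE_t {v : Vc} (x y : Xh) (e : Lt) (h : lab e (pos x) = v) (hy : y = x * iG (gl e)) :
    RE v (x, true) (y, false) := ⟨x, e, h, Or.inl ⟨rfl, by rw [hy]⟩⟩

theorem RE_t_iff {v : Vc} {x : Xh} {s' : Xh × Bool} (h : RE v (x, true) s') :
    ∃ e : Lt, lab e (pos x) = v ∧ s' = (x * iG (gl e), false) := by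
  obtain ⟨x', e, hv, h⟩ := h
  rcases h with ⟨h1, h2⟩ | ⟨h1, h2⟩
  · have hx : x = x' := congrArg Prod.fst h1
    subst hx
    exact ⟨e, hv, h2⟩
  · have := congrArg Prod.snd h1
    simp at this

theorem RE_f_iff {v : Vc} {y : Xh} {s' : Xh × Bool} (h : RE v (y, false) s') :
    ∃ e : Lt, lab e (pos y - be e) = v ∧ s' = (y * (iG (gl e))⁻¹, true) := by
  obtain ⟨x', e, hv, h⟩ := h
  rcases h with ⟨h1, h2⟩ | ⟨h1, h2⟩
  · have := congrArg Prod.snd h1
    simp at this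
  · have hy : y = x' * iG (gl e) := congrArg Prod.fst h1
    refine ⟨e, ?_, ?_⟩
    · rw [hy, pos_mul, pos_iG, add_sub_cancel_right]
      exact hv
    · rw [h2, hy, mul_inv_cancel_right]

theorem RE_fun (H1 : StmH1) (v : Vc) (s a b : Xh × Bool) (ha : RE v s a) (hb : RE v s b) :
    a = b := by
  obtain ⟨x, i⟩ := s
  cases i with
  | true =>
    obtain ⟨e, he, rfl⟩ := RE_t_iff ha
    obtain ⟨f, hf, rfl⟩ := RE_t_iff hb
    have : e = f := H1.1 (pos x) e f (he.trans hf.symm)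
    rw [this]
  | false =>
    obtain ⟨e, he, rfl⟩ := RE_f_iff ha
    obtain ⟨f, hf, rfl⟩ := RE_f_iff hb
    have : e = f := H1.2 (pos x) e f (he.trans hf.symm)
    rw [this]

/-- the four edges of a square -/
theorem sq_RE (t : Lt × Lt × Lt × Lt) (ht : t ∈ sqs) (x0 x1 y0 y1 : Xh)
    (h0 : y0 = x0 * iG (gl t.1)) (h1 : y0 = x1 * iG (gl t.2.1))
    (h2 : y1 = x1 * iG (gl t.2.2.1)) :
    y1 = x0 * iG (gl t.2.2.2) ∧
    RE (lab t.1 (pos x0)) (x0, true) (y0, false) ∧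
    RE (lab t.1 (pos x0)) (x1, true) (y1, false) ∧
    RE (lab t.2.2.2 (pos x0)) (x0, true) (y1, false) ∧
    RE (lab t.2.2.2 (pos x0)) (x1, true) (y0, false) := by
  have hx1 : x1 = x0 * iG (gl t.1) * (iG (gl t.2.1))⁻¹ := by
    rw [← h0, h1, mul_inv_cancel_right]
  have hy1 : y1 = x0 * iG (gl t.2.2.2) := by
    have h := sq_X t ht
    rw [mul_inv_eq_one] at h
    rw [h2, hx1, ← h]
    simp only [mul_assoc]
  have hp : pos x1 = pos x0 + be t.1 - be t.2.1 := by
    rw [hx1, pos_mul, pos_mul, pos_inv, pos_iG, pos_iG, sub_eq_add_neg]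
  refine ⟨hy1, RE_t _ _ _ rfl h0, RE_t _ _ t.2.2.1 ?_ h2, RE_t _ _ t.2.2.2 rfl hy1,
    RE_t _ _ t.2.1 ?_ h1⟩
  · rw [hp]
    exact sq_lab1 t ht _
  · rw [hp]
    exact sq_lab2 t ht _

theorem cornP_iff {e f : Lt} (h : cornP e f = true) : ∃ t ∈ sqs,
    (e = t.1 ∧ f = t.2.2.2) ∨ (f = t.1 ∧ e = t.2.2.2) ∨ (e = t.2.1 ∧ f = t.2.2.1) ∨
      (f = t.2.1 ∧ e = t.2.2.1) := by
  unfold cornP at h
  rw [List.any_eq_true] at h
  obtain ⟨t, ht, h⟩ := h
  refine ⟨t, ht, ?_⟩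
  simp only [Bool.or_eq_true, Bool.and_eq_true, beq_iff_eq] at h
  tauto

theorem cornM_iff {e f : Lt} (h : cornM e f = true) : ∃ t ∈ sqs,
    (e = t.1 ∧ f = t.2.1) ∨ (f = t.1 ∧ e = t.2.1) ∨ (e = t.2.2.1 ∧ f = t.2.2.2) ∨
      (f = t.2.2.1 ∧ e = t.2.2.2) := by
  unfold cornM at h
  rw [List.any_eq_true] at h
  obtain ⟨t, ht, h⟩ := h
  refine ⟨t, ht, ?_⟩
  simp only [Bool.or_eq_true, Bool.and_eq_true, beq_iff_eq] at h
  tauto

theorem cl_P1 (t : Lt × Lt × Lt × Lt) (ht : t ∈ sqs) (x : Xh) :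
    ∃ c, RE (lab t.2.2.2 (pos x)) (x * iG (gl t.1), false) c ∧
      RE (lab t.1 (pos x)) (x * iG (gl t.2.2.2), false) c := by
  obtain ⟨h1, h2, h3, h4, h5⟩ := sq_RE t ht x (x * iG (gl t.1) * (iG (gl t.2.1))⁻¹)
    (x * iG (gl t.1)) _ rfl (by group) rfl
  refine ⟨(x * iG (gl t.1) * (iG (gl t.2.1))⁻¹, true), RE_symm _ _ _ h5, ?_⟩
  rw [h1] at h3
  exact RE_symm _ _ _ h3

theorem cl_P2 (t : Lt × Lt × Lt × Lt) (ht : t ∈ sqs) (x : Xh) :
    ∃ c, RE (lab t.2.2.1 (pos x)) (x * iG (gl t.2.1), false) c ∧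
      RE (lab t.2.1 (pos x)) (x * iG (gl t.2.2.1), false) c := by
  obtain ⟨h1, h2, h3, h4, h5⟩ := sq_RE t ht (x * iG (gl t.2.1) * (iG (gl t.1))⁻¹) x
    (x * iG (gl t.2.1)) (x * iG (gl t.2.2.1)) (by group) rfl rfl
  have hp : pos x = pos (x * iG (gl t.2.1) * (iG (gl t.1))⁻¹) + be t.1 - be t.2.1 := by
    rw [pos_mul, pos_mul, pos_inv, pos_iG, pos_iG]
    abel
  refine ⟨(x * iG (gl t.2.1) * (iG (gl t.1))⁻¹, true), ?_, ?_⟩
  · rw [hp, sq_lab1 t ht]
    exact RE_symm _ _ _ h2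
  · rw [hp, sq_lab2 t ht]
    exact RE_symm _ _ _ h4

theorem cl_M1 (t : Lt × Lt × Lt × Lt) (ht : t ∈ sqs) (y : Xh) :
    ∃ c, RE (lab t.2.1 (pos y - be t.2.1)) (y * (iG (gl t.1))⁻¹, true) c ∧
      RE (lab t.1 (pos y - be t.1)) (y * (iG (gl t.2.1))⁻¹, true) c := by
  obtain ⟨h1, h2, h3, h4, h5⟩ := sq_RE t ht (y * (iG (gl t.1))⁻¹) (y * (iG (gl t.2.1))⁻¹)
    y _ (by group) (by group) rfl
  have hp : pos (y * (iG (gl t.1))⁻¹) = pos y - be t.1 := by
    rw [pos_mul, pos_inv, pos_iG, sub_eq_add_neg]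
  have hp2 : pos y - be t.2.1 = pos (y * (iG (gl t.1))⁻¹) + be t.1 - be t.2.1 := by
    rw [hp]
    abel
  refine ⟨(y * (iG (gl t.2.1))⁻¹ * iG (gl t.2.2.1), false), ?_, ?_⟩
  · rw [hp2, sq_lab2 t ht]
    exact h4
  · rw [← hp]
    exact h3

theorem cl_M2 (t : Lt × Lt × Lt × Lt) (ht : t ∈ sqs) (y : Xh) :
    ∃ c, RE (lab t.2.2.2 (pos y - be t.2.2.2)) (y * (iG (gl t.2.2.1))⁻¹, true) c ∧
      RE (lab t.2.2.1 (pos y - be t.2.2.1)) (y * (iG (gl t.2.2.2))⁻¹, true) c := by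
  have hr := sq_X t ht
  have e1 : y * (iG (gl t.2.2.2))⁻¹ * iG (gl t.1) = y * (iG (gl t.2.2.1))⁻¹ * iG (gl t.2.1) := by
    have h2 : iG (gl t.1) = iG (gl t.2.2.2) * (iG (gl t.2.2.1))⁻¹ * iG (gl t.2.1) := by
      have h3 : iG (gl t.1) = (iG (gl t.1) * (iG (gl t.2.1))⁻¹ * iG (gl t.2.2.1) *
        (iG (gl t.2.2.2))⁻¹) * (iG (gl t.2.2.2) * (iG (gl t.2.2.1))⁻¹ * iG (gl t.2.1)) := by
        group
      rw [h3, hr, one_mul]
    rw [h2]
    group
  obtain ⟨h1, h2, h3, h4, h5⟩ := sq_RE t ht (y * (iG (gl t.2.2.2))⁻¹) (y * (iG (gl t.2.2.1))⁻¹)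
    (y * (iG (gl t.2.2.2))⁻¹ * iG (gl t.1)) y rfl e1 (by group)
  have hp : pos (y * (iG (gl t.2.2.2))⁻¹) = pos y - be t.2.2.2 := by
    rw [pos_mul, pos_inv, pos_iG, sub_eq_add_neg]
  have hp2 : pos y - be t.2.2.1 = pos (y * (iG (gl t.2.2.2))⁻¹) + be t.1 - be t.2.1 := by
    rw [hp]
    have := sq_be t ht
    have h6 : be t.1 - be t.2.1 = be t.2.2.2 - be t.2.2.1 := by
      have h7 : be t.1 - be t.2.1 = (be t.1 - be t.2.1 + be t.2.2.1 - be t.2.2.2) +
        (be t.2.2.2 - be t.2.2.1) := by abel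
      rw [h7, this, zero_add]
    rw [add_sub_assoc, h6]
    abel
  refine ⟨(y * (iG (gl t.2.2.2))⁻¹ * iG (gl t.1), false), ?_, ?_⟩
  · rw [← hp]
    exact h5
  · rw [hp2, sq_lab1 t ht]
    exact h2

/-- closing the squares -/
theorem RE_sq (H2 : StmH2) (v w : Vc) (hadj : adjV v w) (hne : v ≠ w) (s a b : Xh × Bool)
    (ha : RE v s a) (hb : RE w s b) : ∃ c, RE w a c ∧ RE v b c := by
  obtain ⟨x, i⟩ := s
  cases i with
  | true =>
    obtain ⟨e, he, rfl⟩ := RE_t_iff ha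
    obtain ⟨f, hf, rfl⟩ := RE_t_iff hb
    have hef : e ≠ f := by
      rintro rfl
      exact hne (he.symm.trans hf)
    have hc : cornP e f = true := H2.1 (pos x) e f hef (by rw [he, hf]; exact hadj)
    obtain ⟨t, ht, h⟩ := cornP_iff hc
    subst he
    subst hf
    rcases h with ⟨rfl, rfl⟩ | ⟨rfl, rfl⟩ | ⟨rfl, rfl⟩ | ⟨rfl, rfl⟩
    · exact cl_P1 t ht x
    · obtain ⟨c, h1, h2⟩ := cl_P1 t ht x
      exact ⟨c, h2, h1⟩
    · exact cl_P2 t ht x
    · obtain ⟨c, h1, h2⟩ := cl_P2 t ht x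
      exact ⟨c, h2, h1⟩
  | false =>
    obtain ⟨e, he, rfl⟩ := RE_f_iff ha
    obtain ⟨f, hf, rfl⟩ := RE_f_iff hb
    have hef : e ≠ f := by
      rintro rfl
      exact hne (he.symm.trans hf)
    have hc : cornM e f = true := H2.2 (pos x) e f hef (by rw [he, hf]; exact hadj)
    obtain ⟨t, ht, h⟩ := cornM_iff hc
    subst he
    subst hf
    rcases h with ⟨rfl, rfl⟩ | ⟨rfl, rfl⟩ | ⟨rfl, rfl⟩ | ⟨rfl, rfl⟩
    · exact cl_M1 t ht x
    · obtain ⟨c, h1, h2⟩ := cl_M1 t ht x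
      exact ⟨c, h2, h1⟩
    · exact cl_M2 t ht x
    · obtain ⟨c, h1, h2⟩ := cl_M2 t ht x
      exact ⟨c, h2, h1⟩

/-! ### The other moves -/

/-- right multiplications -/
def mulR (u : Xh) : Equiv.Perm (Xh × Bool) where
  toFun := fun s => (s.1 * u, s.2)
  invFun := fun s => (s.1 * u⁻¹, s.2)
  left_inv := fun s => by simp
  right_inv := fun s => by simp

theorem mulR_inv (u : Xh) : (mulR u)⁻¹ = mulR u⁻¹ := by
  apply Equiv.ext
  intro s
  rfl

theorem mulR_comm {u w : Xh} (h : Commute u w) : Commute (mulR u) (mulR w) := by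
  apply Equiv.ext
  intro s
  show (s.1 * w * u, s.2) = (s.1 * u * w, s.2)
  rw [mul_assoc, mul_assoc, h.eq]

theorem mulR_RE (u : Xh) (hu : piX u = 1) (h : ∀ g : G, Commute (iG g) u) (v : Vc)
    (a b : Xh × Bool) (hab : RE v a b) : RE v (mulR u a) (mulR u b) := by
  obtain ⟨x, e, hv, h'⟩ := hab
  refine ⟨x * u, e, ?_, ?_⟩
  · rw [pos_mul, pos_one hu, add_zero]
    exact hv
  · have hc : x * u * iG (gl e) = x * iG (gl e) * u := by
      rw [mul_assoc, mul_assoc, (h (gl e)).eq]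
    rw [hc]
    rcases h' with ⟨rfl, rfl⟩ | ⟨rfl, rfl⟩
    · exact Or.inl ⟨rfl, rfl⟩
    · exact Or.inr ⟨rfl, rfl⟩

open Classical in
/-- the move of the states with position in the class `c` -/
noncomputable def mvF (c : Bz ⧸ KT) (u : Xh) (s : Xh × Bool) : Xh × Bool :=
  if (QuotientAddGroup.mk (pos s.1) : Bz ⧸ KT) = c then (s.1 * u, s.2) else s

theorem mvF_pos {c : Bz ⧸ KT} {u : Xh} {s : Xh × Bool}
    (h : (QuotientAddGroup.mk (pos s.1) : Bz ⧸ KT) = c) : mvF c u s = (s.1 * u, s.2) := by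
  unfold mvF
  rw [if_pos h]

theorem mvF_neg {c : Bz ⧸ KT} {u : Xh} {s : Xh × Bool}
    (h : ¬ (QuotientAddGroup.mk (pos s.1) : Bz ⧸ KT) = c) : mvF c u s = s := by
  unfold mvF
  rw [if_neg h]

theorem mvF_inv (c : Bz ⧸ KT) (u : Xh) (hu : piX u = 1) (s : Xh × Bool) :
    mvF c u⁻¹ (mvF c u s) = s := by
  by_cases h : (QuotientAddGroup.mk (pos s.1) : Bz ⧸ KT) = c
  · rw [mvF_pos h, mvF_pos]
    · simp
    · show (QuotientAddGroup.mk (pos (s.1 * u)) : Bz ⧸ KT) = c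
      rw [pos_mul, pos_one hu, add_zero]
      exact h
  · rw [mvF_neg h, mvF_neg h]

/-- the move of the states with position in the class `c` -/
noncomputable def mvT (c : Bz ⧸ KT) (u : Xh) (hu : piX u = 1) : Equiv.Perm (Xh × Bool) where
  toFun := mvF c u
  invFun := mvF c u⁻¹
  left_inv := mvF_inv c u hu
  right_inv := fun s => by
    have h : piX u⁻¹ = 1 := by rw [map_inv, hu, inv_one]
    have := mvF_inv c u⁻¹ h s
    rwa [inv_inv] at this

theorem mvF_RE (H3 : StmH3) (c : Bz ⧸ KT) (u : Xh) (hu : piX u = 1)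
    (hc : ∀ e : Lt, isY e = true → Commute (iG (gl e)) u) (v : Vc) (hadj : adjT v c)
    (a b : Xh × Bool) (hab : RE v a b) : RE v (mvF c u a) (mvF c u b) := by
  obtain ⟨x, e, hv, h'⟩ := hab
  have key : (isY e = true ∧ (QuotientAddGroup.mk (pos x) : Bz ⧸ KT) = c ∧
      (QuotientAddGroup.mk (pos (x * iG (gl e))) : Bz ⧸ KT) = c) ∨
      (¬ (QuotientAddGroup.mk (pos x) : Bz ⧸ KT) = c ∧
      ¬ (QuotientAddGroup.mk (pos (x * iG (gl e))) : Bz ⧸ KT) = c) := by
    have hY : isY e = true → (QuotientAddGroup.mk (pos x) : Bz ⧸ KT) =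
        (QuotientAddGroup.mk (pos (x * iG (gl e))) : Bz ⧸ KT) := by
      intro hY
      rw [QuotientAddGroup.eq, pos_mul, pos_iG, neg_add_cancel_left]
      exact AddSubgroup.subset_closure ⟨e, hY, rfl⟩
    by_cases h1 : (QuotientAddGroup.mk (pos x) : Bz ⧸ KT) = c
    · have h2 : isY e = true := by
        apply H3.1 (pos x) e
        rw [hv, h1]
        exact hadj
      exact Or.inl ⟨h2, h1, by rw [← hY h2]; exact h1⟩
    · refine Or.inr ⟨h1, ?_⟩
      intro h3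
      have h2 : isY e = true := by
        apply H3.2 (pos (x * iG (gl e))) e
        rw [h3]
        have : pos (x * iG (gl e)) - be e = pos x := by
          rw [pos_mul, pos_iG, add_sub_cancel_right]
        rw [this, hv]
        exact hadj
      apply h1
      rw [hY h2]
      exact h3
  rcases key with ⟨hY, h1, h2⟩ | ⟨h1, h2⟩
  · refine ⟨x * u, e, ?_, ?_⟩
    · rw [pos_mul, pos_one hu, add_zero]
      exact hv
    · have hcc : x * u * iG (gl e) = x * iG (gl e) * u := by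
        rw [mul_assoc, mul_assoc, (hc e hY).eq]
      rw [hcc]
      rcases h' with ⟨rfl, rfl⟩ | ⟨rfl, rfl⟩
      · refine Or.inl ⟨?_, ?_⟩
        · exact mvF_pos h1
        · exact mvF_pos h2
      · refine Or.inr ⟨?_, ?_⟩
        · exact mvF_pos h2
        · exact mvF_pos h1
  · rcases h' with ⟨rfl, rfl⟩ | ⟨rfl, rfl⟩
    · rw [mvF_neg (s := (x, true)) h1, mvF_neg (s := (x * iG (gl e), false)) h2]
      exact ⟨x, e, hv, Or.inl ⟨rfl, rfl⟩⟩
    · rw [mvF_neg (s := (x, true)) h1, mvF_neg (s := (x * iG (gl e), false)) h2]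
      exact ⟨x, e, hv, Or.inr ⟨rfl, rfl⟩⟩

theorem mvT_mulR (c : Bz ⧸ KT) (u w : Xh) (hu : piX u = 1) (hw : piX w = 1)
    (h : Commute u w) : Commute (mvT c u hu) (mulR w) := by
  apply Equiv.ext
  intro s
  show mvF c u (s.1 * w, s.2) = ((mvF c u s).1 * w, (mvF c u s).2)
  have hp : pos (s.1 * w) = pos s.1 := by
    rw [pos_mul, pos_one hw, add_zero]
  by_cases h1 : (QuotientAddGroup.mk (pos s.1) : Bz ⧸ KT) = c
  · rw [mvF_pos h1, mvF_pos (s := (s.1 * w, s.2)) (by rw [hp]; exact h1)]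
    show (s.1 * w * u, s.2) = (s.1 * u * w, s.2)
    rw [mul_assoc, mul_assoc, h.eq]
  · rw [mvF_neg h1, mvF_neg (s := (s.1 * w, s.2)) (by rw [hp]; exact h1)]

/-! ### Commutations in the group of states -/

theorem iG_kk (g : G) (i : Fin 4) : Commute (iG g) (kkX i) := by
  show Commute (thB Z2 (thB C1 g, 1)) (thB Z2 (1, kk i))
  apply Commute.map
  show (thB C1 g, (1 : K4)) * (1, kk i) = (1, kk i) * (thB C1 g, 1)
  simp

theorem tau_kk (i : Fin 4) : Commute tauX (kkX i) := by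
  show Commute (thB Z2 (thT C1, 1)) (thB Z2 (1, kk i))
  apply Commute.map
  show (thT C1, (1 : K4)) * (1, kk i) = (1, kk i) * (thT C1, 1)
  simp

theorem iG_sig (g : G) : Commute (iG g) sigX := by
  apply thB_comm
  exact ⟨g, rfl⟩

theorem iG_tau (e : Lt) (h : isY e = true) : Commute (iG (gl e)) tauX := by
  show Commute (thB Z2 (thB C1 (gl e), 1)) (thB Z2 (thT C1, 1))
  apply Commute.map
  have h1 : Commute (thB C1 (gl e)) (thT C1) :=
    thB_comm C1 _ (Subgroup.subset_closure ⟨e, h, rfl⟩)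
  show (thB C1 (gl e), (1 : K4)) * (thT C1, 1) = (thT C1, 1) * (thB C1 (gl e), 1)
  rw [Prod.mk_mul_mk, Prod.mk_mul_mk, h1.eq]

theorem kk_comm (i j : Fin 4) (h : i.val + 1 = j.val) : Commute (kk i) (kk j) := by
  have hadj : P4.Adj i j := by
    unfold P4
    rw [SimpleGraph.fromRel_adj]
    refine ⟨?_, Or.inl h⟩
    rintro rfl
    omega
  have h1 : FreeGroup.of i * FreeGroup.of j * (FreeGroup.of i)⁻¹ * (FreeGroup.of j)⁻¹ ∈
      Subgroup.normalClosure (raagRels P4) :=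
    Subgroup.subset_normalClosure ⟨i, j, hadj, rfl⟩
  have h2 : PresentedGroup.mk (raagRels P4)
      (FreeGroup.of i * FreeGroup.of j * (FreeGroup.of i)⁻¹ * (FreeGroup.of j)⁻¹) = 1 :=
    (QuotientGroup.eq_one_iff _).mpr h1
  simp only [map_mul, map_inv] at h2
  have h3 : kk i * kk j * (kk i)⁻¹ * (kk j)⁻¹ = 1 := h2
  show kk i * kk j = kk j * kk i
  rw [mul_inv_eq_one, mul_inv_eq_iff_eq_mul] at h3
  exact h3

theorem kkX_comm (i j : Fin 4) (h : i.val + 1 = j.val) : Commute (kkX i) (kkX j) := by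
  show Commute (thB Z2 (1, kk i)) (thB Z2 (1, kk j))
  apply Commute.map
  show ((1 : TH C1), kk i) * (1, kk j) = (1, kk j) * (1, kk i)
  rw [Prod.mk_mul_mk, Prod.mk_mul_mk, (kk_comm i j h).eq]

/-! ### The action -/

/-- the images of the generators -/
noncomputable def rh (H1 : StmH1) : Vx → Equiv.Perm (Xh × Bool)
  | Sum.inl v => pinv (RE v) (RE_fun H1 v) (RE_symm v)
  | Sum.inr (Sum.inl c) => (mvT c tauX piX_tau)⁻¹
  | Sum.inr (Sum.inr (Sum.inl i)) => (mulR (kkX i))⁻¹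
  | Sum.inr (Sum.inr (Sum.inr _)) => (mulR sigX)⁻¹

theorem inv_one' {u : Xh} (hu : piX u = 1) : piX u⁻¹ = 1 := by rw [map_inv, hu, inv_one]

theorem rh_comm (H1 : StmH1) (H2 : StmH2) (H3 : StmH3) (a b : Vx) (hne : a ≠ b)
    (h : adjR a b) : Commute (rh H1 a) (rh H1 b) := by
  rcases a with v | c | i | u
  · rcases b with w | c | i | u
    · have hne' : v ≠ w := fun h' => hne (by rw [h'])
      exact pinv_comm_pinv (RE v) (RE w) (RE_fun H1 v) (RE_symm v) (RE_fun H1 w) (RE_symm w)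
        (RE_sq H2 v w h hne')
    · show Commute (pinv (RE v) (RE_fun H1 v) (RE_symm v)) (mvT c tauX piX_tau)⁻¹
      apply Commute.inv_right
      apply pinv_comm
      · exact mvF_RE H3 c tauX piX_tau iG_tau v h
      · exact mvF_RE H3 c tauX⁻¹ (inv_one' piX_tau)
          (fun e he => (iG_tau e he).inv_right) v h
    · show Commute (pinv (RE v) (RE_fun H1 v) (RE_symm v)) (mulR (kkX i))⁻¹
      apply Commute.inv_right
      apply pinv_comm
      · exact mulR_RE (kkX i) (piX_kk i) (fun g => iG_kk g i) v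
      · rw [mulR_inv]
        exact mulR_RE (kkX i)⁻¹ (inv_one' (piX_kk i)) (fun g => (iG_kk g i).inv_right) v
    · show Commute (pinv (RE v) (RE_fun H1 v) (RE_symm v)) (mulR sigX)⁻¹
      apply Commute.inv_right
      apply pinv_comm
      · exact mulR_RE sigX piX_sig (fun g => iG_sig g) v
      · rw [mulR_inv]
        exact mulR_RE sigX⁻¹ (inv_one' piX_sig) (fun g => (iG_sig g).inv_right) v
  · rcases b with w | c' | i | u
    · exact h.elim
    · exact h.elim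
    · show Commute (mvT c tauX piX_tau)⁻¹ (mulR (kkX i))⁻¹
      apply Commute.inv_inv
      exact mvT_mulR c tauX (kkX i) piX_tau (piX_kk i) (tau_kk i)
    · exact h.elim
  · rcases b with w | c' | j | u
    · exact h.elim
    · exact h.elim
    · show Commute (mulR (kkX i))⁻¹ (mulR (kkX j))⁻¹
      apply Commute.inv_inv
      exact mulR_comm (kkX_comm i j h)
    · exact h.elim
  · rcases b with w | c' | j | u
    · exact h.elim
    · exact h.elim
    · exact h.elim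
    · exact h.elim

/-- the action -/
noncomputable def rho (H1 : StmH1) (H2 : StmH2) (H3 : StmH3) : D →* Equiv.Perm (Xh × Bool) :=
  PresentedGroup.toGroup (f := rh H1) (by
    rintro r ⟨a, b, hab, rfl⟩
    have hc : Commute (rh H1 a) (rh H1 b) := by
      unfold Gx at hab
      rw [SimpleGraph.fromRel_adj] at hab
      obtain ⟨hne, h | h⟩ := hab
      · exact rh_comm H1 H2 H3 a b hne h
      · exact (rh_comm H1 H2 H3 b a hne.symm h).symm
    simp only [map_mul, map_inv, FreeGroup.lift_apply_of]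
    rw [hc.eq]
    group)

theorem rho_of (H1 : StmH1) (H2 : StmH2) (H3 : StmH3) (v : Vx) :
    rho H1 H2 H3 (PresentedGroup.of v) = rh H1 v := by
  unfold rho
  exact PresentedGroup.toGroup.of _

theorem perm : StmH1 → StmH2 → StmH3 → StmPerm := by
  intro H1 H2 H3
  refine ⟨piX, rho H1 H2 H3, ?_, piX_tau, piX_kk, piX_sig, ?_, ?_, ?_, ?_, ?_⟩
  · intro e
    rw [piX_iG, posG_gl]
  · intro e x
    rw [rho_of]
    show pf (RE (lab e (pos x))) (x, true) = _
    exact pf_eq (RE_fun H1 _) (RE_t x _ e rfl rfl)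
  · intro e x
    rw [rho_of]
    show pf (RE (lab e (pos x))) (x * iG (gl e), false) = _
    exact pf_eq (RE_fun H1 _) (RE_symm _ _ _ (RE_t x _ e rfl rfl))
  · intro x s
    rw [rho_of]
    show ((mvT (QuotientAddGroup.mk (pos x)) tauX piX_tau)⁻¹)⁻¹ (x, s) = _
    rw [inv_inv]
    exact mvF_pos (s := (x, s)) rfl
  · intro i x s
    rw [rho_of]
    show ((mulR (kkX i))⁻¹)⁻¹ (x, s) = _
    rw [inv_inv]
    rfl
  · intro x s
    rw [rho_of]
    show ((mulR sigX)⁻¹)⁻¹ (x, s) = _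
    rw [inv_inv]
    rfl

end Pool.Agent.W33.RA
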